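import Pool.Agent.H846R3.Fin2

set_option autoImplicit false

namespace Pool.Agent.Results.MP_181555_al.SquaresOfTransvections

open Pool.Agent.H846R3.Sq Pool.Agent.Helper156.OF

/-- The intersection of the kernels of all homomorphisms from the free group of rank `n` to the
symmetric group of degree three. -/
def K3 (n : ℕ) : Subgroup (FreeGroup (Fin n)) :=
  ⨅ f : FreeGroup (Fin n) →* Equiv.Perm (Fin 3), f.ker

/-- `τ` is the transvection `x i ↦ x i * x j` (with `i ≠ j`), fixing the other generators. -/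
def IsTransvection {n : ℕ} (τ : MulAut (FreeGroup (Fin n))) : Prop :=
  ∃ i j : Fin n, i ≠ j ∧ τ (FreeGroup.of i) = FreeGroup.of i * FreeGroup.of j ∧
    ∀ k, k ≠ i → τ (FreeGroup.of k) = FreeGroup.of k

lemma mem_K3 {n : ℕ} {x : FreeGroup (Fin n)} :
    x ∈ K3 n ↔ ∀ f : FreeGroup (Fin n) →* Equiv.Perm (Fin 3), f x = 1 := by
  unfold K3
  rw [Subgroup.mem_iInf]
  rfl

instance finHom (n : ℕ) : Finite (FreeGroup (Fin n) →* Equiv.Perm (Fin 3)) :=
  Finite.of_equiv _ (FreeGroup.lift (α := Fin n) (β := Equiv.Perm (Fin 3)))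

lemma K3_char (n : ℕ) : (K3 n).Characteristic := by
  rw [Subgroup.characteristic_iff_le_comap]
  intro φ x hx
  rw [Subgroup.mem_comap]
  rw [mem_K3] at hx ⊢
  intro f
  exact hx (f.comp φ.toMonoidHom)

lemma K3_fin (n : ℕ) : (K3 n).FiniteIndex := by
  unfold K3
  exact Subgroup.finiteIndex_iInf fun f => inferInstance

/-- Quotients of `Aut (F_n)`, `n ≥ 3`, in which the square of a transvection dies, satisfy the
congruence property, with `K3 n` as the congruence subgroup. -/
theorem result : ∀ n : ℕ, 2 < n →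
    (K3 n).Characteristic ∧ (K3 n).FiniteIndex ∧
    ∀ N : Subgroup (MulAut (FreeGroup (Fin n))), N.Normal →
      (∃ τ : MulAut (FreeGroup (Fin n)), IsTransvection τ ∧ τ * τ ∈ N) →
      N.FiniteIndex ∧
      (∀ ψ : MulAut (FreeGroup (Fin n)), (∀ x : FreeGroup (Fin n), ψ x * x⁻¹ ∈ K3 n) → ψ ∈ N) ∧
      ((∀ g : FreeGroup (Fin n), MulAut.conj g ∈ N) →
        ∀ ψ : MulAut (FreeGroup (Fin n)),
          (∃ g : FreeGroup (Fin n), ∀ x : FreeGroup (Fin n),
            ψ x * (g * x * g⁻¹)⁻¹ ∈ K3 n) → ψ ∈ N) := by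
  intro n hn
  refine ⟨K3_char n, K3_fin n, ?_⟩
  rintro N hN ⟨τ, ⟨i, j, hij, h1, h2⟩, hτ⟩
  have h3 : ∀ i j : Fin n, ∃ k, k ≠ i ∧ k ≠ j := by
    intro a b
    have hc : ({a, b} : Finset (Fin n)).card < Fintype.card (Fin n) := by
      have := Finset.card_le_two (a := a) (b := b)
      rw [Fintype.card_fin]
      omega
    obtain ⟨k, hk⟩ := Finset.exists_mem_notMem_of_card_lt_card
      (s := ({a, b} : Finset (Fin n))) (t := Finset.univ) (by rwa [Finset.card_univ])
    refine ⟨k, ?_, ?_⟩
    · rintro rfl; exact hk.2 (by simp)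
    · rintro rfl; exact hk.2 (by simp)
  have hτe : τ = eAut (i, true) (j, true) := by
    apply MulEquiv.toMonoidHom_injective
    ext1 k
    show τ (FreeGroup.of k) = eAut (i, true) (j, true) (FreeGroup.of k)
    by_cases hk : k = i
    · rw [hk, h1, e_i hij]
    · rw [h2 k hk, e_k hk]
  have hMN : MM i j ≤ N := by
    unfold MM
    apply Subgroup.normalClosure_le_normal
    rintro _ rfl
    rw [← hτe]
    exact hτ
  have key : ∀ ψ : MulAut (FreeGroup (Fin n)),
      (∀ x : FreeGroup (Fin n), ψ x * x⁻¹ ∈ K3 n) → ψ ∈ N := by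
    intro ψ hψ
    apply hMN
    apply core h3 hij
    intro f x
    have := mem_K3.1 (hψ x) f
    rw [map_mul, map_inv, mul_inv_eq_one] at this
    exact this
  refine ⟨?_, key, ?_⟩
  · -- finite index: the kernel of the action on homomorphisms to `S_3`
    let act : MulAut (FreeGroup (Fin n)) →*
        Equiv.Perm (FreeGroup (Fin n) →* Equiv.Perm (Fin 3)) :=
      { toFun := fun ψ =>
          { toFun := fun f =>
              f.comp ((ψ⁻¹ : MulAut (FreeGroup (Fin n))) : FreeGroup (Fin n) →* FreeGroup (Fin n))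
            invFun := fun f =>
              f.comp ((ψ : MulAut (FreeGroup (Fin n))) : FreeGroup (Fin n) →* FreeGroup (Fin n))
            left_inv := fun f => by
              ext1 x
              show f (ψ⁻¹ (ψ (FreeGroup.of x))) = _
              rw [MulAut.inv_apply_self]
            right_inv := fun f => by
              ext1 x
              show f (ψ (ψ⁻¹ (FreeGroup.of x))) = _
              rw [MulAut.apply_inv_self] }
        map_one' := by
          ext1 f
          ext1 x
          rfl
        map_mul' := by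
          intro a b
          ext1 f
          ext1 x
          show f ((a * b)⁻¹ (FreeGroup.of x)) = f (b⁻¹ (a⁻¹ (FreeGroup.of x)))
          rw [mul_inv_rev]
          rfl }
    have hfin : act.ker.FiniteIndex := inferInstance
    refine Subgroup.finiteIndex_of_le (H := act.ker) ?_
    intro ψ hψ
    have hψ' : act ψ = 1 := hψ
    apply key
    intro x
    rw [mem_K3]
    intro f
    have h5 : act ψ⁻¹ f = f := by
      rw [map_inv, hψ', inv_one]
      rfl
    have h6 : f ((ψ⁻¹)⁻¹ x) = f x := DFunLike.congr_fun h5 x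
    rw [inv_inv] at h6
    rw [map_mul, map_inv, h6, mul_inv_cancel]
  · rintro hinn ψ ⟨g, hg⟩
    have h7 : (MulAut.conj g)⁻¹ * ψ ∈ N := by
      apply key
      intro x
      rw [mem_K3]
      intro f
      have h8 := mem_K3.1 (hg x) f
      have h9 : ((MulAut.conj g)⁻¹ * ψ) x = g⁻¹ * ψ x * g := by
        rw [MulAut.mul_apply, MulAut.conj_inv_apply]
      rw [h9]
      simp only [map_mul, map_inv] at h8 ⊢
      rw [mul_inv_eq_one] at h8
      rw [h8]
      group
    have h10 := mul_mem (hinn g) h7
    rwa [mul_inv_cancel_left] at h10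

end Pool.Agent.Results.MP_181555_al.SquaresOfTransvections
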